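import Pool.Agent.Helper547.Diestel.Small

set_option autoImplicit false

open MeasureTheory ProbabilityTheory Filter Topology
open scoped ENNReal NNReal InnerProductSpace

namespace Pool.Agent.Helper547.Diestel

variable {V : Type*} [NormedAddCommGroup V] [NormedSpace ℝ V]
variable {κ : Type*} {Y : κ → Type*} [∀ i, NormedAddCommGroup (Y i)] [∀ i, NormedSpace ℝ (Y i)]
variable {K : Type*} [NormedAddCommGroup K] [InnerProductSpace ℝ K] [CompleteSpace K]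
variable {ι : Type*} [DecidableEq ι]

/-- The family `u` is orthonormal on the finite set `s`. -/
def OrthOn (s : Finset ι) (u : ι → H2) : Prop :=
  ∀ i ∈ s, ∀ j ∈ s, ⟪u i, u j⟫_ℝ = if i = j then 1 else 0

lemma OrthOn.norm_sq {s : Finset ι} {u : ι → H2} (h : OrthOn s u) (a : ι → ℝ) :
    ‖∑ i ∈ s, a i • u i‖ ^ 2 = ∑ i ∈ s, a i ^ 2 := by
  rw [← real_inner_self_eq_norm_sq, sum_inner]
  refine Finset.sum_congr rfl fun i hi => ?_
  rw [inner_sum, Finset.sum_eq_single_of_mem i hi]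
  · rw [inner_smul_left, inner_smul_right, h i hi i hi]
    simp
    ring
  · intro j hj hji
    rw [inner_smul_left, inner_smul_right, h i hi j hj, if_neg (Ne.symm hji)]
    simp

lemma chain (hY : ∀ i, ¬ ContainsEll2 (Y i)) (S : ι → (H2 →L[ℝ] lp Y 2))
    (S' : ι → (H2 →L[ℝ] K)) (s : Finset ι) : ∀ ε : ℝ, 0 < ε → ∃ u : ι → H2, OrthOn s u ∧
      |‖∑ i ∈ s, S i (u i)‖ ^ 2 - ∑ i ∈ s, ‖S i (u i)‖ ^ 2| ≤ ε ∧
      ‖∑ i ∈ s, S' i (u i)‖ ^ 2 = ∑ i ∈ s, ‖S' i (u i)‖ ^ 2 := by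
  classical
  induction s using Finset.induction_on with
  | empty =>
    intro ε hε
    refine ⟨fun _ => 0, fun i hi => absurd hi (Finset.notMem_empty i), ?_, by simp⟩
    simp [hε.le]
  | insert a s ha ih =>
    intro ε hε
    obtain ⟨u, hu1, hu2, hu3⟩ := ih (ε / 2) (by positivity)
    obtain ⟨x, hx, hx1, hx2⟩ := hump hY (S a) (∑ i ∈ s, S i (u i))
      (Submodule.span ℝ ((s.image u : Finset H2) : Set H2) ⊔
        Submodule.span ℝ {ContinuousLinearMap.adjoint (S' a) (∑ i ∈ s, S' i (u i))})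
      inferInstance (show 0 < ε / 2 by positivity)
    have hx3 : ∀ i ∈ s, ⟪u i, x⟫_ℝ = 0 := by
      intro i hi
      exact (Submodule.mem_orthogonal _ _).mp (Submodule.orthogonal_le le_sup_left hx) (u i)
        (Submodule.subset_span (by
          simp only [Finset.coe_image, Set.mem_image]
          exact ⟨i, hi, rfl⟩))
    have hx4 : ⟪∑ i ∈ s, S' i (u i), S' a x⟫_ℝ = 0 := by
      rw [← ContinuousLinearMap.adjoint_inner_left]
      exact (Submodule.mem_orthogonal _ _).mp (Submodule.orthogonal_le le_sup_right hx) _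
        (Submodule.mem_span_singleton_self _)
    have hup : ∀ i ∈ s, Function.update u a x i = u i := by
      intro i hi
      rw [Function.update_of_ne]
      rintro rfl
      exact ha hi
    refine ⟨Function.update u a x, ?_, ?_, ?_⟩
    · intro i hi j hj
      rcases Finset.mem_insert.mp hi with rfl | hi' <;> rcases Finset.mem_insert.mp hj with rfl | hj'
      · rw [Function.update_self, real_inner_self_eq_norm_sq, hx1]
        simp
      · rw [Function.update_self, hup j hj', real_inner_comm, hx3 j hj', if_neg]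
        rintro rfl
        exact ha hj'
      · rw [Function.update_self, hup i hi', hx3 i hi', if_neg]
        rintro rfl
        exact ha hi'
      · rw [hup i hi', hup j hj']
        exact hu1 i hi' j hj'
    · rw [Finset.sum_insert ha, Finset.sum_insert ha, Function.update_self]
      have h1 : ∑ i ∈ s, S i (Function.update u a x i) = ∑ i ∈ s, S i (u i) :=
        Finset.sum_congr rfl fun i hi => by rw [hup i hi]
      have h2 : ∑ i ∈ s, ‖S i (Function.update u a x i)‖ ^ 2 = ∑ i ∈ s, ‖S i (u i)‖ ^ 2 :=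
        Finset.sum_congr rfl fun i hi => by rw [hup i hi]
      rw [h1, h2, add_comm (S a x)]
      rw [abs_le] at *
      constructor <;> linarith [hx2.1, hx2.2, hu2.1, hu2.2]
    · rw [Finset.sum_insert ha, Finset.sum_insert ha, Function.update_self]
      have h1 : ∑ i ∈ s, S' i (Function.update u a x i) = ∑ i ∈ s, S' i (u i) :=
        Finset.sum_congr rfl fun i hi => by rw [hup i hi]
      have h2 : ∑ i ∈ s, ‖S' i (Function.update u a x i)‖ ^ 2 = ∑ i ∈ s, ‖S' i (u i)‖ ^ 2 :=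
        Finset.sum_congr rfl fun i hi => by rw [hup i hi]
      rw [h1, h2, ← hu3, add_comm (S' a x), norm_add_sq_real, hx4]
      ring

/-- A bounded-below operator from `L²([0,1],V)` into `(∑ Y_i)_2 ⊕ K`. -/
structure Emb (V : Type*) {κ : Type*} (Y : κ → Type*) (K : Type*) [NormedAddCommGroup V]
    [NormedSpace ℝ V] [∀ i, NormedAddCommGroup (Y i)] [∀ i, NormedSpace ℝ (Y i)]
    [NormedAddCommGroup K] [InnerProductSpace ℝ K] where
  T : Lp V 2 mu01 →L[ℝ] lp Y 2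
  T' : Lp V 2 mu01 →L[ℝ] K
  c : ℝ
  C : ℝ
  hc : 0 < c
  hC : 0 < C
  lower : ∀ f, c * ‖f‖ ^ 2 ≤ ‖T f‖ ^ 2 + ‖T' f‖ ^ 2
  upper : ∀ f, ‖T f‖ ^ 2 + ‖T' f‖ ^ 2 ≤ C * ‖f‖ ^ 2

omit [CompleteSpace K] in
lemma OrthOn.congr [CompleteSpace V] [SecondCountableTopology V] {s : Finset ι} {u u' : ι → H2}
    (h : OrthOn s u) (h' : OrthOn s u') (z : ι → V) :
    ‖(∑ i ∈ s, tens (z i) (u i) : Lp V 2 mu01)‖ = ‖(∑ i ∈ s, tens (z i) (u' i) : Lp V 2 mu01)‖ := by
  apply norm_sum_tens_congr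
  intro l
  have h1 : ‖∑ i ∈ s, l (z i) • u i‖ ^ 2 = ‖∑ i ∈ s, l (z i) • u' i‖ ^ 2 := by
    rw [h.norm_sq, h'.norm_sq]
  exact (sq_eq_sq₀ (norm_nonneg _) (norm_nonneg _)).mp h1

lemma OrthOn.norm_one {s : Finset ι} {u : ι → H2} (h : OrthOn s u) {i : ι} (hi : i ∈ s) :
    ‖u i‖ = 1 := by
  have := h i hi i hi
  rw [real_inner_self_eq_norm_sq, if_pos rfl] at this
  nlinarith [norm_nonneg (u i)]

lemma twoSided [CompleteSpace V] [SecondCountableTopology V] (hY : ∀ i, ¬ ContainsEll2 (Y i))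
    (E : Emb V Y K) (s : Finset ι) (u : ι → H2) (hu : OrthOn s u) (z : ι → V) :
    E.c * ‖(∑ i ∈ s, tens (z i) (u i) : Lp V 2 mu01)‖ ^ 2 ≤ E.C * ∑ i ∈ s, ‖z i‖ ^ 2 ∧
    E.c * ∑ i ∈ s, ‖z i‖ ^ 2 ≤ E.C * ‖(∑ i ∈ s, tens (z i) (u i) : Lp V 2 mu01)‖ ^ 2 := by
  have key : ∀ ε : ℝ, 0 < ε →
      E.c * ‖(∑ i ∈ s, tens (z i) (u i) : Lp V 2 mu01)‖ ^ 2 ≤ E.C * ∑ i ∈ s, ‖z i‖ ^ 2 + ε ∧
      E.c * ∑ i ∈ s, ‖z i‖ ^ 2 ≤ E.C * ‖(∑ i ∈ s, tens (z i) (u i) : Lp V 2 mu01)‖ ^ 2 + ε := by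
    intro ε hε
    obtain ⟨v, hv, hv2, hv3⟩ := chain hY (fun i => E.T.comp (tens (z i)))
      (fun i => E.T'.comp (tens (z i))) s ε hε
    rw [hu.congr hv z]
    simp only [ContinuousLinearMap.comp_apply, ← map_sum] at hv2 hv3
    have h1 := E.lower (∑ i ∈ s, tens (z i) (v i))
    have h2 := E.upper (∑ i ∈ s, tens (z i) (v i))
    have h3 : ∑ i ∈ s, ‖E.T (tens (z i) (v i))‖ ^ 2 + ∑ i ∈ s, ‖E.T' (tens (z i) (v i))‖ ^ 2 ≤
        E.C * ∑ i ∈ s, ‖z i‖ ^ 2 := by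
      rw [← Finset.sum_add_distrib, Finset.mul_sum]
      refine Finset.sum_le_sum fun i hi => ?_
      have := E.upper (tens (z i) (v i))
      rwa [norm_tens, hv.norm_one hi, mul_one] at this
    have h4 : E.c * ∑ i ∈ s, ‖z i‖ ^ 2 ≤
        ∑ i ∈ s, ‖E.T (tens (z i) (v i))‖ ^ 2 + ∑ i ∈ s, ‖E.T' (tens (z i) (v i))‖ ^ 2 := by
      rw [← Finset.sum_add_distrib, Finset.mul_sum]
      refine Finset.sum_le_sum fun i hi => ?_
      have := E.lower (tens (z i) (v i))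
      rwa [norm_tens, hv.norm_one hi, mul_one] at this
    rw [abs_le] at hv2
    constructor <;> linarith [hv2.1, hv2.2]
  exact ⟨le_of_forall_pos_le_add fun ε hε => (key ε hε).1,
    le_of_forall_pos_le_add fun ε hε => (key ε hε).2⟩

/-- The Kwapien type inequality. -/
lemma kwapien_ineq [CompleteSpace V] [SecondCountableTopology V] (hY : ∀ i, ¬ ContainsEll2 (Y i))
    (E : Emb V Y K) {ι' : Type*} [DecidableEq ι'] (s : Finset ι) (s' : Finset ι') (z : ι → V)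
    (z' : ι' → V)
    (h : ∀ l : StrongDual ℝ V, ∑ i ∈ s, l (z i) ^ 2 = ∑ i ∈ s', l (z' i) ^ 2) :
    ∑ i ∈ s, ‖z i‖ ^ 2 ≤ (E.C / E.c) ^ 2 * ∑ i ∈ s', ‖z' i‖ ^ 2 := by
  obtain ⟨u, hu, -, -⟩ := chain hY (fun _ : ι => 0) (fun _ : ι => (0 : H2 →L[ℝ] K)) s 1 one_pos
  obtain ⟨u', hu', -, -⟩ := chain hY (fun _ : ι' => 0) (fun _ : ι' => (0 : H2 →L[ℝ] K)) s' 1 one_pos
  have h1 : ‖(∑ i ∈ s, tens (z i) (u i) : Lp V 2 mu01)‖ =
      ‖(∑ i ∈ s', tens (z' i) (u' i) : Lp V 2 mu01)‖ := by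
    apply norm_sum_tens_congr
    intro l
    have h1 : ‖∑ i ∈ s, l (z i) • u i‖ ^ 2 = ‖∑ i ∈ s', l (z' i) • u' i‖ ^ 2 := by
      rw [hu.norm_sq, hu'.norm_sq, h l]
    exact (sq_eq_sq₀ (norm_nonneg _) (norm_nonneg _)).mp h1
  have h2 := (twoSided hY E s u hu z).2
  have h3 := (twoSided hY E s' u' hu' z').1
  rw [h1] at h2
  have hc := E.hc
  have hC := E.hC
  have h4 : ‖(∑ i ∈ s', tens (z' i) (u' i) : Lp V 2 mu01)‖ ^ 2 ≤
      (E.C / E.c) * ∑ i ∈ s', ‖z' i‖ ^ 2 := by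
    rw [div_mul_eq_mul_div, le_div_iff₀ hc]
    linarith
  have h5 : ∑ i ∈ s, ‖z i‖ ^ 2 ≤
      (E.C / E.c) * ‖(∑ i ∈ s', tens (z' i) (u' i) : Lp V 2 mu01)‖ ^ 2 := by
    rw [div_mul_eq_mul_div, le_div_iff₀ hc]
    linarith
  calc _ ≤ _ := h5
    _ ≤ (E.C / E.c) * ((E.C / E.c) * ∑ i ∈ s', ‖z' i‖ ^ 2) := by gcongr
    _ = _ := by ring

end Pool.Agent.Helper547.Diestel
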