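import Pool.Agent.Helper547.Diestel.Main

set_option autoImplicit false

open MeasureTheory Filter Topology TopologicalSpace
open scoped ENNReal NNReal InnerProductSpace

universe u

namespace Pool.Agent.Helper547.Diestel

lemma onset_countable {A : Type*} [NormedAddCommGroup A] [InnerProductSpace ℝ A]
    [SeparableSpace A] {ι : Type*} {v : ι → A} (hv : Orthonormal ℝ v) : Countable ι := by
  have hd : Pairwise (Function.onFun Disjoint (fun i => Metric.ball (v i) (1 / 2))) := by
    intro i j hij
    apply Metric.ball_disjoint_ball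
    rw [dist_eq_norm]
    have h1 : ‖v i - v j‖ ^ 2 = 2 := by
      rw [norm_sub_sq_real, hv.1 i, hv.1 j, hv.2 hij]
      norm_num
    nlinarith [norm_nonneg (v i - v j)]
  exact hd.countable_of_isOpen_disjoint (fun _ => Metric.isOpen_ball)
    (fun i => ⟨v i, Metric.mem_ball_self (by norm_num)⟩)

lemma hilbert_iso (A : Type*) [NormedAddCommGroup A] [InnerProductSpace ℝ A] [CompleteSpace A]
    [SeparableSpace A] (hA : ¬ FiniteDimensional ℝ A) : Nonempty (A ≃ₗᵢ[ℝ] H2) := by
  obtain ⟨w, b, hb⟩ := exists_hilbertBasis ℝ A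
  have hc : Countable w := onset_countable b.orthonormal
  have hi : Infinite w := by
    by_contra hcon
    rw [not_infinite_iff_finite] at hcon
    have : Fintype w := Fintype.ofFinite w
    exact hA (Module.Basis.finiteDimensional_of_finite b.toOrthonormalBasis.toBasis)
  obtain ⟨hden⟩ := nonempty_denumerable w
  let e : w ≃ ℕ := Denumerable.eqv w
  have ho : Orthonormal ℝ (fun n => b (e.symm n)) := b.orthonormal.comp _ e.symm.injective
  have hr : Set.range (fun n => b (e.symm n)) = Set.range b := by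
    ext x
    constructor
    · rintro ⟨n, rfl⟩
      exact ⟨_, rfl⟩
    · rintro ⟨n, rfl⟩
      exact ⟨e n, by simp⟩
  exact ⟨(HilbertBasis.mk ho (by rw [hr, b.dense_span])).repr⟩

lemma ell2_separable (A : Type*) [NormedAddCommGroup A] [NormedSpace ℝ A] [SeparableSpace A] :
    SeparableSpace (lp (fun _ : ℕ => A) 2) := by
  have hD := TopologicalSpace.exists_countable_dense A
  obtain ⟨D, hDc, hDd⟩ := hD
  let S : Set (lp (fun _ : ℕ => A) 2) := ⋃ n : ℕ, (fun d => lp.single 2 n d) '' D
  have hSc : S.Countable := Set.countable_iUnion fun n => hDc.image _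
  have hsep : IsSeparable ((Submodule.span ℝ S).topologicalClosure :
      Set (lp (fun _ : ℕ => A) 2)) := hSc.isSeparable.span.closure
  have htop : ((Submodule.span ℝ S).topologicalClosure : Set (lp (fun _ : ℕ => A) 2)) =
      Set.univ := by
    rw [Set.eq_univ_iff_forall]
    intro f
    have h1 : ∀ (n : ℕ) (x : A), lp.single 2 n x ∈ (Submodule.span ℝ S).topologicalClosure := by
      intro n x
      have h2 : x ∈ closure D := hDd x
      have h3 : Continuous (fun x : A => (lp.single 2 n x : lp (fun _ : ℕ => A) 2)) :=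
        (lp.isometry_single (E := fun _ : ℕ => A) (p := 2) n).continuous
      have h4 : lp.single 2 n x ∈ closure ((fun d => lp.single 2 n d) '' D) :=
        image_closure_subset_closure_image h3 ⟨x, h2, rfl⟩
      refine closure_mono ?_ h4
      refine Set.Subset.trans ?_ Submodule.subset_span
      exact Set.subset_iUnion (fun n : ℕ => (fun d => (lp.single 2 n d :
        lp (fun _ : ℕ => A) 2)) '' D) n
    have h5 := lp.hasSum_single (p := 2) (by norm_num) f
    refine (Submodule.isClosed_topologicalClosure _).mem_of_tendsto h5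
      (Eventually.of_forall fun s => ?_)
    exact Submodule.sum_mem _ fun i _ => h1 i _
  rw [htop] at hsep
  exact isSeparable_univ_iff.mp hsep

/-- Induced isomorphism of Bochner spaces. -/
noncomputable def L2congr {X Y : Type*} [NormedAddCommGroup X] [NormedSpace ℝ X]
    [NormedAddCommGroup Y] [NormedSpace ℝ Y] (e : X ≃L[ℝ] Y) :
    Lp X 2 mu01 ≃L[ℝ] Lp Y 2 mu01 :=
  ContinuousLinearEquiv.equivOfInverse ((e : X →L[ℝ] Y).compLpL 2 mu01)
    ((e.symm : Y →L[ℝ] X).compLpL 2 mu01)
    (by
      intro f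
      apply Lp.ext
      filter_upwards [ContinuousLinearMap.coeFn_compLpL (p := 2) (μ := mu01) (e.symm : Y →L[ℝ] X)
        ((e : X →L[ℝ] Y).compLpL 2 mu01 f),
        ContinuousLinearMap.coeFn_compLpL (p := 2) (μ := mu01) (e : X →L[ℝ] Y) f] with t h1 h2
      rw [h1, h2]
      exact e.symm_apply_apply _)
    (by
      intro f
      apply Lp.ext
      filter_upwards [ContinuousLinearMap.coeFn_compLpL (p := 2) (μ := mu01) (e : X →L[ℝ] Y)
        ((e.symm : Y →L[ℝ] X).compLpL 2 mu01 f),
        ContinuousLinearMap.coeFn_compLpL (p := 2) (μ := mu01) (e.symm : Y →L[ℝ] X) f]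
        with t h1 h2
      rw [h1, h2]
      exact e.apply_symm_apply _)

/-- Coordinatewise operator on `ℓ²(X)`. -/
noncomputable def ellmap {X Y : Type*} [NormedAddCommGroup X] [NormedSpace ℝ X]
    [NormedAddCommGroup Y] [NormedSpace ℝ Y] (e : X →L[ℝ] Y) :
    lp (fun _ : ℕ => X) 2 →L[ℝ] lp (fun _ : ℕ => Y) 2 :=
  mkLp (fun i => e.comp (lp.evalCLM ℝ (fun _ : ℕ => X) 2 i)) ‖e‖ (norm_nonneg _) (by
    intro z s
    calc ∑ i ∈ s, ‖e (z i)‖ ^ 2 ≤ ∑ i ∈ s, (‖e‖ * ‖z i‖) ^ 2 :=
          Finset.sum_le_sum fun i _ => pow_le_pow_left₀ (norm_nonneg _) (e.le_opNorm _) 2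
      _ = ‖e‖ ^ 2 * ∑ i ∈ s, ‖z i‖ ^ 2 := by
          rw [Finset.mul_sum]
          exact Finset.sum_congr rfl fun i _ => mul_pow _ _ _
      _ ≤ ‖e‖ ^ 2 * ‖z‖ ^ 2 := by
          gcongr
          exact sum_le_hasSum s (fun i _ => sq_nonneg _) (hasSum_sq z)
      _ = (‖e‖ * ‖z‖) ^ 2 := (mul_pow _ _ _).symm)

/-- Induced isomorphism of `ℓ²`-sums. -/
noncomputable def ellcongr {X Y : Type*} [NormedAddCommGroup X] [NormedSpace ℝ X]
    [NormedAddCommGroup Y] [NormedSpace ℝ Y] (e : X ≃L[ℝ] Y) :
    lp (fun _ : ℕ => X) 2 ≃L[ℝ] lp (fun _ : ℕ => Y) 2 :=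
  ContinuousLinearEquiv.equivOfInverse (ellmap (e : X →L[ℝ] Y)) (ellmap (e.symm : Y →L[ℝ] X))
    (by
      intro f
      ext i
      exact e.symm_apply_apply _)
    (by
      intro f
      ext i
      exact e.apply_symm_apply _)

/-- The known positive direction. -/
theorem iso_of_hilbert {X : Type u} [NormedAddCommGroup X] [NormedSpace ℝ X]
    [SeparableSpace X] {H : Type u} [NormedAddCommGroup H] [InnerProductSpace ℝ H]
    [CompleteSpace H] (e : X ≃L[ℝ] H) :
    Nonempty (lp (fun _ : ℕ => X) 2 ≃L[ℝ] Lp X 2 mu01) := by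
  have hsep : SeparableSpace H := e.surjective.denseRange.separableSpace e.continuous
  rcases subsingleton_or_nontrivial H with hs | hn
  · have h1 : Subsingleton (lp (fun _ : ℕ => H) 2) := by
      refine ⟨fun a b => ?_⟩
      ext i
      exact Subsingleton.elim _ _
    have h2 : Subsingleton (Lp H 2 mu01) := by
      refine ⟨fun a b => ?_⟩
      apply Lp.ext
      exact Eventually.of_forall fun t => Subsingleton.elim _ _
    let z : lp (fun _ : ℕ => H) 2 ≃L[ℝ] Lp H 2 mu01 :=
      ContinuousLinearEquiv.equivOfInverse 0 0 (fun _ => Subsingleton.elim _ _)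
        (fun _ => Subsingleton.elim _ _)
    exact ⟨(ellcongr e).trans (z.trans (L2congr e).symm)⟩
  · obtain ⟨z, hz⟩ := exists_norm_eq H (zero_le_one (α := ℝ))
    have h1 : ¬ FiniteDimensional ℝ (Lp H 2 mu01) := by
      intro hf
      apply not_fd
      refine FiniteDimensional.of_injective (tens z).toLinearMap ?_
      rw [injective_iff_map_eq_zero]
      intro a ha
      have h2 : ‖tens z a‖ = ‖z‖ * ‖a‖ := norm_tens z a
      have h3 : tens z a = 0 := ha
      rw [h3, norm_zero, hz, one_mul] at h2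
      exact norm_eq_zero.mp h2.symm
    have h2 : ¬ FiniteDimensional ℝ (lp (fun _ : ℕ => H) 2) := by
      intro hf
      apply not_fd
      refine FiniteDimensional.of_injective
        (ellmap (ContinuousLinearMap.toSpanSingleton ℝ z)).toLinearMap ?_
      rw [injective_iff_map_eq_zero]
      intro a ha
      ext i
      have h3 : (ellmap (ContinuousLinearMap.toSpanSingleton ℝ z) a) i = 0 := by
        have h4 : ellmap (ContinuousLinearMap.toSpanSingleton ℝ z) a = 0 := ha
        rw [h4]
        rfl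
      have h5 : (ellmap (ContinuousLinearMap.toSpanSingleton ℝ z) a) i = a i • z := rfl
      rw [h5, smul_eq_zero] at h3
      rcases h3 with h3 | h3
      · rw [h3]
        rfl
      · rw [h3, norm_zero] at hz
        exact absurd hz (by norm_num)
    have : SeparableSpace (lp (fun _ : ℕ => H) 2) := ell2_separable H
    have : Fact ((2 : ℝ≥0∞) ≠ ∞) := ⟨by norm_num⟩
    have : SecondCountableTopology (Lp H 2 mu01) := inferInstance
    obtain ⟨a⟩ := hilbert_iso (Lp H 2 mu01) h1
    obtain ⟨b⟩ := hilbert_iso (lp (fun _ : ℕ => H) 2) h2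
    exact ⟨(ellcongr e).trans ((b.toContinuousLinearEquiv.trans
      a.toContinuousLinearEquiv.symm).trans (L2congr e).symm)⟩

end Pool.Agent.Helper547.Diestel
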