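import Mathlib

set_option autoImplicit false

open Filter Topology
open scoped ENNReal NNReal InnerProductSpace

universe u

namespace Pool.Agent.Helper547.Diestel

variable {V : Type*} [NormedAddCommGroup V] [NormedSpace ℝ V]

/-- Evaluation of the quadratic form `∑ c_x x ⊗ x` at the functional `l`. -/
noncomputable def Qf (l : StrongDual ℝ V) : (V →₀ ℝ) →ₗ[ℝ] ℝ :=
  Finsupp.linearCombination ℝ (fun x => l x ^ 2)

lemma Qf_single (l : StrongDual ℝ V) (x : V) (c : ℝ) :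
    Qf l (Finsupp.single x c) = c * l x ^ 2 := by
  simp [Qf]

/-- The subspace of null combinations. -/
noncomputable def Nul (V : Type*) [NormedAddCommGroup V] [NormedSpace ℝ V] :
    Submodule ℝ (V →₀ ℝ) := ⨅ l : StrongDual ℝ V, LinearMap.ker (Qf l)

lemma mem_Nul (u : V →₀ ℝ) : u ∈ Nul V ↔ ∀ l : StrongDual ℝ V, Qf l u = 0 := by
  simp [Nul, Submodule.mem_iInf]

/-- The dominating sublinear functional. -/
noncomputable def pf (L : ℝ) (u : V →₀ ℝ) : ℝ := ∑ x ∈ u.support, max (L * u x) (u x) * ‖x‖ ^ 2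

omit [NormedSpace ℝ V] in
lemma pf_eq (L : ℝ) (u : V →₀ ℝ) (s : Finset V) (hs : u.support ⊆ s) :
    pf L u = ∑ x ∈ s, max (L * u x) (u x) * ‖x‖ ^ 2 := by
  apply Finset.sum_subset hs
  intro x _ hx
  rw [Finsupp.notMem_support_iff.mp hx]
  simp

omit [NormedSpace ℝ V] in
lemma pf_smul (L : ℝ) (c : ℝ) (hc : 0 < c) (u : V →₀ ℝ) : pf L (c • u) = c * pf L u := by
  rw [pf_eq L (c • u) u.support Finsupp.support_smul, pf, Finset.mul_sum]
  refine Finset.sum_congr rfl fun x _ => ?_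
  rw [Finsupp.smul_apply, smul_eq_mul, show L * (c * u x) = c * (L * u x) by ring,
    ← mul_max_of_nonneg _ _ hc.le]
  ring

omit [NormedSpace ℝ V] in
lemma pf_add (L : ℝ) (u v : V →₀ ℝ) : pf L (u + v) ≤ pf L u + pf L v := by
  classical
  rw [pf_eq L (u + v) (u.support ∪ v.support) Finsupp.support_add,
    pf_eq L u (u.support ∪ v.support) Finset.subset_union_left,
    pf_eq L v (u.support ∪ v.support) Finset.subset_union_right, ← Finset.sum_add_distrib]
  refine Finset.sum_le_sum fun x _ => ?_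
  rw [← add_mul]
  apply mul_le_mul_of_nonneg_right _ (sq_nonneg _)
  rw [Finsupp.add_apply]
  apply max_le
  · rw [mul_add]
    exact add_le_add (le_max_left _ _) (le_max_left _ _)
  · exact add_le_add (le_max_right _ _) (le_max_right _ _)

lemma pf_nonneg (L : ℝ) (hL : 1 ≤ L)
    (h : ∀ (s s' : Finset V) (z z' : V → V),
      (∀ l : StrongDual ℝ V, ∑ i ∈ s, l (z i) ^ 2 = ∑ i ∈ s', l (z' i) ^ 2) →
      ∑ i ∈ s, ‖z i‖ ^ 2 ≤ L * ∑ i ∈ s', ‖z' i‖ ^ 2)
    (u : V →₀ ℝ) (hu : u ∈ Nul V) : 0 ≤ pf L u := by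
  classical
  rw [mem_Nul] at hu
  set A := u.support.filter (fun x => 0 < u x) with hA
  set B := u.support.filter (fun x => ¬ 0 < u x) with hB
  have hsplit : ∀ f : V → ℝ, ∑ x ∈ u.support, f x = ∑ x ∈ A, f x + ∑ x ∈ B, f x := fun f =>
    (Finset.sum_filter_add_sum_filter_not _ _ _).symm
  have hApos : ∀ x ∈ A, 0 < u x := fun x hx => (Finset.mem_filter.mp hx).2
  have hBneg : ∀ x ∈ B, u x ≤ 0 := fun x hx => not_lt.mp (Finset.mem_filter.mp hx).2
  have key := h B A (fun x => Real.sqrt (-u x) • x) (fun x => Real.sqrt (u x) • x) (by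
    intro l
    have h1 := hu l
    rw [Qf, Finsupp.linearCombination_apply, Finsupp.sum, hsplit] at h1
    have h2 : ∑ x ∈ A, l (Real.sqrt (u x) • x) ^ 2 = ∑ x ∈ A, u x • l x ^ 2 := by
      refine Finset.sum_congr rfl fun x hx => ?_
      rw [map_smul, smul_eq_mul, mul_pow, Real.sq_sqrt (hApos x hx).le, smul_eq_mul]
    have h3 : ∑ x ∈ B, l (Real.sqrt (-u x) • x) ^ 2 = - ∑ x ∈ B, u x • l x ^ 2 := by
      rw [← Finset.sum_neg_distrib]
      refine Finset.sum_congr rfl fun x hx => ?_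
      rw [map_smul, smul_eq_mul, mul_pow, Real.sq_sqrt (neg_nonneg.mpr (hBneg x hx)), smul_eq_mul]
      ring
    rw [h2, h3]
    linarith)
  have h4 : ∑ x ∈ A, ‖Real.sqrt (u x) • x‖ ^ 2 = ∑ x ∈ A, u x * ‖x‖ ^ 2 := by
    refine Finset.sum_congr rfl fun x hx => ?_
    rw [norm_smul, mul_pow, Real.norm_eq_abs, sq_abs, Real.sq_sqrt (hApos x hx).le]
  have h5 : ∑ x ∈ B, ‖Real.sqrt (-u x) • x‖ ^ 2 = - ∑ x ∈ B, u x * ‖x‖ ^ 2 := by
    rw [← Finset.sum_neg_distrib]
    refine Finset.sum_congr rfl fun x hx => ?_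
    rw [norm_smul, mul_pow, Real.norm_eq_abs, sq_abs, Real.sq_sqrt (neg_nonneg.mpr (hBneg x hx))]
    ring
  have h6 : ∑ x ∈ A, max (L * u x) (u x) * ‖x‖ ^ 2 = L * ∑ x ∈ A, u x * ‖x‖ ^ 2 := by
    rw [Finset.mul_sum]
    refine Finset.sum_congr rfl fun x hx => ?_
    have := hApos x hx
    rw [max_eq_left (by nlinarith)]
    ring
  have h7 : ∑ x ∈ B, max (L * u x) (u x) * ‖x‖ ^ 2 = ∑ x ∈ B, u x * ‖x‖ ^ 2 := by
    refine Finset.sum_congr rfl fun x hx => ?_
    have := hBneg x hx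
    rw [max_eq_right (by nlinarith)]
  rw [pf, hsplit, h6, h7]
  rw [h4, h5] at key
  linarith

/-- The data of an equivalent Hilbertian norm. -/
theorem exists_core (L : ℝ) (hL : 1 ≤ L)
    (h : ∀ (s s' : Finset V) (z z' : V → V),
      (∀ l : StrongDual ℝ V, ∑ i ∈ s, l (z i) ^ 2 = ∑ i ∈ s', l (z' i) ^ 2) →
      ∑ i ∈ s, ‖z i‖ ^ 2 ≤ L * ∑ i ∈ s', ‖z' i‖ ^ 2) :
    ∃ c : InnerProductSpace.Core ℝ V, ∀ x, ‖x‖ ^ 2 ≤ c.inner x x ∧ c.inner x x ≤ L * ‖x‖ ^ 2 := by
  obtain ⟨φ, hφ1, hφ2⟩ := exists_extension_of_le_sublinear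
    (⟨Nul V, 0⟩ : (V →₀ ℝ) →ₗ.[ℝ] ℝ) (pf L) (fun c hc u => pf_smul L c hc u)
    (fun u v => pf_add L u v) (fun u => by
      show (0 : ℝ) ≤ pf L (u : V →₀ ℝ)
      exact pf_nonneg L hL h u.1 u.2)
  have hN : ∀ u ∈ Nul V, φ u = 0 := fun u hu => hφ1 ⟨u, hu⟩
  set d : V → (V →₀ ℝ) := fun x => Finsupp.single x 1 with hd
  have hQ : ∀ (l : StrongDual ℝ V) (x : V), Qf l (d x) = l x ^ 2 := by
    intro l x
    rw [hd]
    simp only
    rw [Qf_single, one_mul]
  have hup : ∀ x, φ (d x) ≤ L * ‖x‖ ^ 2 := by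
    intro x
    refine (hφ2 (d x)).trans (le_of_eq ?_)
    rw [pf_eq L (d x) {x} Finsupp.support_single_subset, Finset.sum_singleton]
    simp only [hd, Finsupp.single_eq_same, mul_one]
    rw [max_eq_left hL]
  have hlow : ∀ x, ‖x‖ ^ 2 ≤ φ (d x) := by
    intro x
    have h1 := hφ2 (-(d x))
    have h2 : pf L (-(d x)) = -‖x‖ ^ 2 := by
      rw [pf_eq L (-(d x)) {x} (by
        rw [Finsupp.support_neg]
        exact Finsupp.support_single_subset), Finset.sum_singleton]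
      simp only [hd, Finsupp.neg_apply, Finsupp.single_eq_same, mul_neg, mul_one]
      rw [max_eq_right (by linarith)]
      ring
    rw [map_neg, h2] at h1
    linarith
  have hself : ∀ x, (φ (d (x + x)) - φ (d x) - φ (d x)) / 2 = φ (d x) := by
    intro x
    have h1 : d (x + x) - (4 : ℝ) • d x ∈ Nul V := by
      rw [mem_Nul]
      intro l
      rw [map_sub, map_smul, hQ, hQ, map_add, smul_eq_mul]
      ring
    have h2 := hN _ h1
    rw [map_sub, map_smul, smul_eq_mul] at h2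
    linarith
  let c : InnerProductSpace.Core ℝ V :=
    { inner := fun x y => (φ (d (x + y)) - φ (d x) - φ (d y)) / 2
      conj_inner_symm := by
        intro x y
        simp only [conj_trivial]
        rw [add_comm y x]
        ring
      re_inner_nonneg := by
        intro x
        show 0 ≤ (φ (d (x + x)) - φ (d x) - φ (d x)) / 2
        rw [hself]
        exact (sq_nonneg _).trans (hlow x)
      add_left := by
        intro x x' y
        show (φ (d (x + x' + y)) - φ (d (x + x')) - φ (d y)) / 2 =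
          (φ (d (x + y)) - φ (d x) - φ (d y)) / 2 + (φ (d (x' + y)) - φ (d x') - φ (d y)) / 2
        have h1 : d (x + x' + y) - d (x + x') - d y - (d (x + y) - d x - d y) -
            (d (x' + y) - d x' - d y) ∈ Nul V := by
          rw [mem_Nul]
          intro l
          simp only [map_sub, hQ, map_add]
          ring
        have h2 := hN _ h1
        simp only [map_sub] at h2
        linarith
      smul_left := by
        intro x y r
        show (φ (d (r • x + y)) - φ (d (r • x)) - φ (d y)) / 2 =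
          r * ((φ (d (x + y)) - φ (d x) - φ (d y)) / 2)
        have h1 : d (r • x + y) - d (r • x) - d y - r • (d (x + y) - d x - d y) ∈ Nul V := by
          rw [mem_Nul]
          intro l
          simp only [map_sub, map_smul, hQ, map_add, smul_eq_mul]
          ring
        have h2 := hN _ h1
        simp only [map_sub, map_smul, smul_eq_mul] at h2
        linarith
      definite := by
        intro x hx
        have h1 : (φ (d (x + x)) - φ (d x) - φ (d x)) / 2 = 0 := hx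
        rw [hself] at h1
        have h2 := hlow x
        rw [h1] at h2
        have h3 : ‖x‖ ^ 2 = 0 := le_antisymm h2 (sq_nonneg _)
        exact norm_eq_zero.mp (pow_eq_zero_iff (two_ne_zero)|>.mp h3) }
  refine ⟨c, fun x => ?_⟩
  have h1 : c.inner x x = φ (d x) := hself x
  rw [h1]
  exact ⟨hlow x, hup x⟩

/-- An infinite dimensional space with an inner product contains an orthonormal sequence. -/
lemma exists_onseq {E : Type*} [AddCommGroup E] [Module ℝ E] (c : InnerProductSpace.Core ℝ E)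
    (hE : ¬ FiniteDimensional ℝ E) :
    ∃ v : ℕ → E, ∀ (s : Finset ℕ) (a : ℕ → ℝ),
      c.inner (∑ i ∈ s, a i • v i) (∑ i ∈ s, a i • v i) = ∑ i ∈ s, a i ^ 2 := by
  let _ : NormedAddCommGroup E := c.toNormedAddCommGroup
  let _ : InnerProductSpace ℝ E := InnerProductSpace.ofCore c.toCore
  let b := Module.Basis.ofVectorSpace ℝ E
  have hinf : Infinite (Module.Basis.ofVectorSpaceIndex ℝ E) := by
    by_contra hcon
    rw [not_infinite_iff_finite] at hcon
    exact hE (Module.Finite.of_basis b)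
  let e := Infinite.natEmbedding (Module.Basis.ofVectorSpaceIndex ℝ E)
  have hf : LinearIndependent ℝ (fun n => b (e n)) := b.linearIndependent.comp e e.injective
  have ho := InnerProductSpace.gramSchmidtNormed_orthonormal hf
  refine ⟨InnerProductSpace.gramSchmidtNormed ℝ fun n => b (e n), fun s a => ?_⟩
  have h1 := ho.inner_sum a a s
  refine Eq.trans h1 (Finset.sum_congr rfl fun i _ => ?_)
  simp [sq]

lemma core_space {E : Type u} [AddCommGroup E] [Module ℝ E] (c : InnerProductSpace.Core ℝ E) :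
    ∃ (H : Type u) (_ : NormedAddCommGroup H) (_ : InnerProductSpace ℝ H) (e : E ≃ₗ[ℝ] H),
      ∀ x, ‖e x‖ ^ 2 = c.inner x x := by
  refine ⟨E, c.toNormedAddCommGroup, InnerProductSpace.ofCore c.toCore, LinearEquiv.refl ℝ E, ?_⟩
  intro x
  let _ : NormedAddCommGroup E := c.toNormedAddCommGroup
  let _ : InnerProductSpace ℝ E := InnerProductSpace.ofCore c.toCore
  have h : ⟪x, x⟫_ℝ = ‖x‖ ^ 2 := real_inner_self_eq_norm_sq x
  exact h.symm

/-- A space with an equivalent inner product norm is isomorphic to a Hilbert space. -/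
lemma hilb_of_core {X : Type u} [NormedAddCommGroup X] [NormedSpace ℝ X] [CompleteSpace X] (L : ℝ)
    (hL : 0 ≤ L) (c : InnerProductSpace.Core ℝ X)
    (hc : ∀ x, ‖x‖ ^ 2 ≤ c.inner x x ∧ c.inner x x ≤ L * ‖x‖ ^ 2) :
    ∃ (H : Type u) (_ : NormedAddCommGroup H) (_ : InnerProductSpace ℝ H),
      CompleteSpace H ∧ Nonempty (X ≃L[ℝ] H) := by
  obtain ⟨H, i1, i2, e, he⟩ := core_space c
  have h1 : ∀ x, ‖e x‖ ≤ Real.sqrt L * ‖x‖ := by
    intro x
    refine (sq_le_sq₀ (norm_nonneg _) (by positivity)).mp ?_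
    rw [he, mul_pow, Real.sq_sqrt hL]
    exact (hc x).2
  have h2 : ∀ y, ‖e.symm y‖ ≤ 1 * ‖y‖ := by
    intro y
    refine (sq_le_sq₀ (norm_nonneg _) (by positivity)).mp ?_
    have := (hc (e.symm y)).1
    rw [← he, e.apply_symm_apply] at this
    rwa [one_mul]
  let e' : X ≃L[ℝ] H := e.toContinuousLinearEquivOfBounds _ _ h1 h2
  refine ⟨H, i1, i2, ?_, ⟨e'⟩⟩
  exact (completeSpace_congr (e := e'.toEquiv) e'.isUniformEmbedding).mp inferInstance

lemma containsEll2_of_core [CompleteSpace V] (L : ℝ) (c : InnerProductSpace.Core ℝ V)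
    (hc : ∀ x, ‖x‖ ^ 2 ≤ c.inner x x ∧ c.inner x x ≤ L * ‖x‖ ^ 2)
    (hV : ¬ FiniteDimensional ℝ V) :
    ∃ J : lp (fun _ : ℕ => ℝ) 2 →L[ℝ] V, ∃ c : ℝ, 0 < c ∧ ∀ v, c * ‖v‖ ≤ ‖J v‖ := by
  obtain ⟨v, hv⟩ := exists_onseq c hV
  have hup : ∀ (s : Finset ℕ) (a : ℕ → ℝ), ‖∑ i ∈ s, a i • v i‖ ^ 2 ≤ ∑ i ∈ s, a i ^ 2 := by
    intro s a
    rw [← hv s a]
    exact (hc _).1
  have hlow : ∀ (s : Finset ℕ) (a : ℕ → ℝ), ∑ i ∈ s, a i ^ 2 ≤ L * ‖∑ i ∈ s, a i • v i‖ ^ 2 := by
    intro s a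
    rw [← hv s a]
    exact (hc _).2
  have hsq : ∀ a : lp (fun _ : ℕ => ℝ) 2, HasSum (fun i => a i ^ 2) (‖a‖ ^ 2) := by
    intro a
    have := lp.hasSum_norm (p := 2) (by norm_num) a
    simpa using this
  have hsum : ∀ a : lp (fun _ : ℕ => ℝ) 2, Summable (fun i => a i • v i) := by
    intro a
    rw [summable_iff_vanishing_norm]
    intro ε hε
    obtain ⟨s, hs⟩ := summable_iff_vanishing_norm.mp (hsq a).summable (ε ^ 2) (by positivity)
    refine ⟨s, fun t ht => ?_⟩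
    have h1 := hs t ht
    rw [Real.norm_eq_abs, abs_of_nonneg (Finset.sum_nonneg fun i _ => sq_nonneg _)] at h1
    have h2 := hup t (fun i => a i)
    exact lt_of_pow_lt_pow_left₀ 2 hε.le (lt_of_le_of_lt h2 h1)
  have hb1 : ∀ a : lp (fun _ : ℕ => ℝ) 2, ‖∑' i, a i • v i‖ ^ 2 ≤ ‖a‖ ^ 2 := by
    intro a
    have h1 : Tendsto (fun s : Finset ℕ => ‖∑ i ∈ s, a i • v i‖ ^ 2) atTop
        (𝓝 (‖∑' i, a i • v i‖ ^ 2)) := ((hsum a).hasSum.norm).pow 2
    refine le_of_tendsto h1 (Eventually.of_forall fun s => ?_)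
    exact (hup s (fun i => a i)).trans (sum_le_hasSum s (fun i _ => sq_nonneg _) (hsq a))
  have hb2 : ∀ a : lp (fun _ : ℕ => ℝ) 2, ‖a‖ ^ 2 ≤ L * ‖∑' i, a i • v i‖ ^ 2 := by
    intro a
    have h1 : Tendsto (fun s : Finset ℕ => L * ‖∑ i ∈ s, a i • v i‖ ^ 2) atTop
        (𝓝 (L * ‖∑' i, a i • v i‖ ^ 2)) := (((hsum a).hasSum.norm).pow 2).const_mul L
    exact le_of_tendsto_of_tendsto' (hsq a) h1 fun s => hlow s (fun i => a i)
  let J0 : lp (fun _ : ℕ => ℝ) 2 →ₗ[ℝ] V :=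
    { toFun := fun a => ∑' i, a i • v i
      map_add' := by
        intro a b
        rw [← (hsum a).tsum_add (hsum b)]
        refine tsum_congr fun i => ?_
        rw [lp.coeFn_add, Pi.add_apply, add_smul]
      map_smul' := by
        intro r a
        rw [RingHom.id_apply, ← (hsum a).tsum_const_smul r]
        refine tsum_congr fun i => ?_
        rw [lp.coeFn_smul, Pi.smul_apply, smul_eq_mul, mul_smul] }
  let J : lp (fun _ : ℕ => ℝ) 2 →L[ℝ] V := J0.mkContinuous 1 (fun a => by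
    rw [one_mul]
    exact (sq_le_sq₀ (norm_nonneg _) (norm_nonneg _)).mp (hb1 a))
  have hL : 0 ≤ L := by
    by_contra hcon
    push Not at hcon
    have h1 := hb2 (lp.single 2 0 (1 : ℝ))
    have h2 : ‖(lp.single 2 0 (1 : ℝ) : lp (fun _ : ℕ => ℝ) 2)‖ = 1 := by
      rw [lp.norm_single (by norm_num)]
      simp
    rw [h2] at h1
    nlinarith [sq_nonneg (‖∑' i, (lp.single 2 0 (1 : ℝ) : lp (fun _ : ℕ => ℝ) 2) i • v i‖)]
  refine ⟨J, (Real.sqrt (L + 1))⁻¹, by positivity, fun a => ?_⟩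
  have h3 : ‖a‖ ^ 2 ≤ (Real.sqrt (L + 1) * ‖J a‖) ^ 2 := by
    rw [mul_pow, Real.sq_sqrt (by linarith)]
    have h4 : ‖a‖ ^ 2 ≤ L * ‖J a‖ ^ 2 := hb2 a
    nlinarith [sq_nonneg ‖J a‖]
  have h5 : ‖a‖ ≤ Real.sqrt (L + 1) * ‖J a‖ :=
    (sq_le_sq₀ (norm_nonneg _) (by positivity)).mp h3
  rw [inv_mul_le_iff₀ (Real.sqrt_pos.mpr (by linarith))]
  exact h5

end Pool.Agent.Helper547.Diestel
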