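import Pool.Agent.Helper547.Diestel.Chain
import Pool.Agent.Helper547.Diestel.HB

set_option autoImplicit false

open MeasureTheory ProbabilityTheory Filter Topology
open scoped ENNReal NNReal InnerProductSpace

universe u

namespace Pool.Agent.Helper547.Diestel

section mk

variable {Z : Type*} [NormedAddCommGroup Z] [NormedSpace ℝ Z]
variable {κ : Type*} {Y : κ → Type*} [∀ i, NormedAddCommGroup (Y i)] [∀ i, NormedSpace ℝ (Y i)]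

/-- Operators into an `ℓ²`-sum given by their coordinates. -/
noncomputable def mkLp (A : ∀ i, Z →L[ℝ] Y i) (C : ℝ) (hC : 0 ≤ C)
    (h : ∀ (z : Z) (s : Finset κ), ∑ i ∈ s, ‖A i z‖ ^ 2 ≤ (C * ‖z‖) ^ 2) : Z →L[ℝ] lp Y 2 :=
  LinearMap.mkContinuous
    { toFun := fun z => ⟨fun i => A i z, by
        apply memℓp_gen
        refine summable_of_sum_le (c := (C * ‖z‖) ^ 2) (fun i => by positivity) (fun s => ?_)
        simpa using h z s⟩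
      map_add' := by
        intro x y
        ext i
        exact map_add (A i) x y
      map_smul' := by
        intro r x
        ext i
        exact map_smul (A i) r x } C (fun z => by
      apply lp.norm_le_of_forall_sum_le (by norm_num) (by positivity)
      intro s
      simpa using h z s)

lemma mkLp_apply (A : ∀ i, Z →L[ℝ] Y i) (C : ℝ) (hC : 0 ≤ C)
    (h : ∀ (z : Z) (s : Finset κ), ∑ i ∈ s, ‖A i z‖ ^ 2 ≤ (C * ‖z‖) ^ 2) (z : Z) (i : κ) :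
    mkLp A C hC h z i = A i z := rfl

end mk

/-- A Banach space whose `L²([0,1])`-space embeds into an `ℓ²`-sum of spaces without copies of
`ℓ²`, plus a Hilbert space, carries an equivalent Hilbertian norm. -/
theorem core_of_emb {V : Type u} [NormedAddCommGroup V] [NormedSpace ℝ V] [CompleteSpace V]
    [SecondCountableTopology V] {κ : Type*} {Y : κ → Type*} [∀ i, NormedAddCommGroup (Y i)]
    [∀ i, NormedSpace ℝ (Y i)] {K : Type*} [NormedAddCommGroup K] [InnerProductSpace ℝ K]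
    [CompleteSpace K] (hY : ∀ i, ¬ ContainsEll2 (Y i)) (E : Emb V Y K) :
    ∃ (L : ℝ) (c : InnerProductSpace.Core ℝ V), 1 ≤ L ∧
      ∀ x, ‖x‖ ^ 2 ≤ c.inner x x ∧ c.inner x x ≤ L * ‖x‖ ^ 2 := by
  classical
  obtain ⟨c, hc⟩ := exists_core (V := V) (max 1 ((E.C / E.c) ^ 2)) (le_max_left _ _) (by
    intro s s' z z' h
    refine (kwapien_ineq hY E s s' z z' h).trans ?_
    exact mul_le_mul_of_nonneg_right (le_max_right _ _) (by positivity))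
  exact ⟨_, c, le_max_left _ _, hc⟩

/-- The embedding datum obtained from an embedding `T : L²([0,1],X) → ℓ²(X)` and an embedding
`J : X → (∑ Y_i)_2 ⊕ K`. -/
theorem exists_emb {X : Type u} [NormedAddCommGroup X] [NormedSpace ℝ X]
    {κ : Type*} {Y : κ → Type*} [∀ i, NormedAddCommGroup (Y i)]
    [∀ i, NormedSpace ℝ (Y i)] {K : Type*} [NormedAddCommGroup K] [InnerProductSpace ℝ K]
    (J : X →L[ℝ] (lp Y 2 × K)) (b : ℝ) (hb : 0 < b) (hJ : ∀ x, b * ‖x‖ ≤ ‖J x‖)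
    (T : Lp X 2 mu01 →L[ℝ] lp (fun _ : ℕ => X) 2) (a : ℝ) (ha : 0 < a)
    (hT : ∀ f, a * ‖f‖ ≤ ‖T f‖) :
    Nonempty (Emb X (fun p : ℕ × κ => Y p.2) (lp (fun _ : ℕ => K) 2)) := by
  classical
  have hJ1 : ∀ x, ‖(J x).1‖ ≤ ‖J‖ * ‖x‖ := fun x =>
    (norm_fst_le (J x)).trans (J.le_opNorm x)
  have hJ2 : ∀ x, ‖(J x).2‖ ≤ ‖J‖ * ‖x‖ := fun x =>
    (norm_snd_le (J x)).trans (J.le_opNorm x)
  let A : ∀ p : ℕ × κ, lp (fun _ : ℕ => X) 2 →L[ℝ] Y p.2 := fun p =>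
    (lp.evalCLM ℝ Y 2 p.2).comp ((ContinuousLinearMap.fst ℝ (lp Y 2) K).comp
      (J.comp (lp.evalCLM ℝ (fun _ : ℕ => X) 2 p.1)))
  have hA : ∀ p x, A p x = (J (x p.1)).1 p.2 := fun p x => rfl
  let B : ∀ _ : ℕ, lp (fun _ : ℕ => X) 2 →L[ℝ] K := fun i =>
    (ContinuousLinearMap.snd ℝ (lp Y 2) K).comp (J.comp (lp.evalCLM ℝ (fun _ : ℕ => X) 2 i))
  have hB : ∀ i x, B i x = (J (x i)).2 := fun i x => rfl
  have hsumX : ∀ (x : lp (fun _ : ℕ => X) 2) (s : Finset ℕ), ∑ i ∈ s, ‖x i‖ ^ 2 ≤ ‖x‖ ^ 2 :=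
    fun x s => sum_le_hasSum s (fun i _ => sq_nonneg _) (hasSum_sq x)
  have hAs : ∀ (z : lp (fun _ : ℕ => X) 2) (s : Finset (ℕ × κ)),
      ∑ p ∈ s, ‖A p z‖ ^ 2 ≤ (‖J‖ * ‖z‖) ^ 2 := by
    intro z s
    calc ∑ p ∈ s, ‖A p z‖ ^ 2 ≤ ∑ p ∈ s.image Prod.fst ×ˢ s.image Prod.snd, ‖A p z‖ ^ 2 := by
          apply Finset.sum_le_sum_of_subset_of_nonneg
          · exact Finset.subset_product
          · intros; positivity
      _ = ∑ i ∈ s.image Prod.fst, ∑ j ∈ s.image Prod.snd, ‖(J (z i)).1 j‖ ^ 2 :=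
          Finset.sum_product _ _ _
      _ ≤ ∑ i ∈ s.image Prod.fst, (‖J‖ * ‖z i‖) ^ 2 := by
          refine Finset.sum_le_sum fun i _ => ?_
          refine (sum_le_hasSum _ (fun j _ => sq_nonneg _) (hasSum_sq (J (z i)).1)).trans ?_
          exact pow_le_pow_left₀ (norm_nonneg _) (hJ1 _) 2
      _ = ‖J‖ ^ 2 * ∑ i ∈ s.image Prod.fst, ‖z i‖ ^ 2 := by
          rw [Finset.mul_sum]
          exact Finset.sum_congr rfl fun i _ => mul_pow _ _ _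
      _ ≤ ‖J‖ ^ 2 * ‖z‖ ^ 2 := by
          gcongr
          exact hsumX z _
      _ = (‖J‖ * ‖z‖) ^ 2 := (mul_pow _ _ _).symm
  have hBs : ∀ (z : lp (fun _ : ℕ => X) 2) (s : Finset ℕ),
      ∑ i ∈ s, ‖B i z‖ ^ 2 ≤ (‖J‖ * ‖z‖) ^ 2 := by
    intro z s
    calc ∑ i ∈ s, ‖B i z‖ ^ 2 ≤ ∑ i ∈ s, (‖J‖ * ‖z i‖) ^ 2 := by
          refine Finset.sum_le_sum fun i _ => ?_
          exact pow_le_pow_left₀ (norm_nonneg _) (hJ2 _) 2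
      _ = ‖J‖ ^ 2 * ∑ i ∈ s, ‖z i‖ ^ 2 := by
          rw [Finset.mul_sum]
          exact Finset.sum_congr rfl fun i _ => mul_pow _ _ _
      _ ≤ ‖J‖ ^ 2 * ‖z‖ ^ 2 := by
          gcongr
          exact hsumX z _
      _ = (‖J‖ * ‖z‖) ^ 2 := (mul_pow _ _ _).symm
  let Φ : lp (fun _ : ℕ => X) 2 →L[ℝ] lp (fun p : ℕ × κ => Y p.2) 2 :=
    mkLp A ‖J‖ (by positivity) hAs
  let Ψ : lp (fun _ : ℕ => X) 2 →L[ℝ] lp (fun _ : ℕ => K) 2 :=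
    mkLp B ‖J‖ (by positivity) hBs
  have hlow : ∀ x, b ^ 2 * ‖x‖ ^ 2 ≤ ‖Φ x‖ ^ 2 + ‖Ψ x‖ ^ 2 := by
    intro x
    have h1 : HasSum (fun i => ‖(J (x i)).1‖ ^ 2) (‖Φ x‖ ^ 2) := by
      refine HasSum.prod_fiberwise (hasSum_sq (Φ x)) (fun i => ?_)
      exact hasSum_sq (J (x i)).1
    have h2 : HasSum (fun i => ‖(J (x i)).2‖ ^ 2) (‖Ψ x‖ ^ 2) := hasSum_sq (Ψ x)
    have h3 := (hasSum_sq x).mul_left (b ^ 2)
    refine hasSum_le (fun i => ?_) h3 (h1.add h2)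
    have h4 := hJ (x i)
    have h5 : ‖J (x i)‖ ^ 2 ≤ ‖(J (x i)).1‖ ^ 2 + ‖(J (x i)).2‖ ^ 2 := by
      rw [Prod.norm_def]
      rcases max_choice ‖(J (x i)).1‖ ‖(J (x i)).2‖ with h | h
      · rw [h]
        linarith [sq_nonneg ‖(J (x i)).2‖]
      · rw [h]
        linarith [sq_nonneg ‖(J (x i)).1‖]
    calc b ^ 2 * ‖x i‖ ^ 2 = (b * ‖x i‖) ^ 2 := (mul_pow _ _ _).symm
      _ ≤ ‖J (x i)‖ ^ 2 := pow_le_pow_left₀ (by positivity) h4 2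
      _ ≤ _ := h5
  refine ⟨⟨Φ.comp T, Ψ.comp T, b ^ 2 * a ^ 2, ((‖Φ‖ * ‖T‖) ^ 2 + (‖Ψ‖ * ‖T‖) ^ 2) + 1,
    by positivity, by positivity, ?_, ?_⟩⟩
  · intro f
    have h1 := hlow (T f)
    have h2 : a ^ 2 * ‖f‖ ^ 2 ≤ ‖T f‖ ^ 2 := by
      rw [← mul_pow]
      exact pow_le_pow_left₀ (by positivity) (hT f) 2
    calc b ^ 2 * a ^ 2 * ‖f‖ ^ 2 = b ^ 2 * (a ^ 2 * ‖f‖ ^ 2) := by ring
      _ ≤ b ^ 2 * ‖T f‖ ^ 2 := by gcongr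
      _ ≤ _ := h1
  · intro f
    have h1 : ‖Φ (T f)‖ ≤ ‖Φ‖ * ‖T‖ * ‖f‖ := by
      calc ‖Φ (T f)‖ ≤ ‖Φ‖ * ‖T f‖ := Φ.le_opNorm _
        _ ≤ ‖Φ‖ * (‖T‖ * ‖f‖) := by gcongr; exact T.le_opNorm f
        _ = _ := by ring
    have h2 : ‖Ψ (T f)‖ ≤ ‖Ψ‖ * ‖T‖ * ‖f‖ := by
      calc ‖Ψ (T f)‖ ≤ ‖Ψ‖ * ‖T f‖ := Ψ.le_opNorm _
        _ ≤ ‖Ψ‖ * (‖T‖ * ‖f‖) := by gcongr; exact T.le_opNorm f
        _ = _ := by ring
    have h3 : ‖Φ (T f)‖ ^ 2 ≤ (‖Φ‖ * ‖T‖ * ‖f‖) ^ 2 := pow_le_pow_left₀ (norm_nonneg _) h1 2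
    have h4 : ‖Ψ (T f)‖ ^ 2 ≤ (‖Ψ‖ * ‖T‖ * ‖f‖) ^ 2 := pow_le_pow_left₀ (norm_nonneg _) h2 2
    show ‖Φ (T f)‖ ^ 2 + ‖Ψ (T f)‖ ^ 2 ≤ _
    nlinarith [sq_nonneg ‖f‖]

end Pool.Agent.Helper547.Diestel
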