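import Pool.Agent.Helper547.Diestel.Tens

set_option autoImplicit false

open MeasureTheory ProbabilityTheory Filter Topology
open scoped ENNReal NNReal InnerProductSpace

namespace Pool.Agent.Helper547.Diestel

/-- The Banach space `V` contains an isomorphic copy of the Hilbert space `ℓ²`. -/
def ContainsEll2 (V : Type*) [NormedAddCommGroup V] [NormedSpace ℝ V] : Prop :=
  ∃ J : H2 →L[ℝ] V, ∃ c : ℝ, 0 < c ∧ ∀ v, c * ‖v‖ ≤ ‖J v‖

lemma single_orthonormal : Orthonormal ℝ (fun i : ℕ => (lp.single 2 i (1 : ℝ) : H2)) := by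
  rw [orthonormal_iff_ite]
  intro i j
  rw [lp.inner_single_left]
  by_cases h : i = j
  · subst h
    simp
  · simp [h]

lemma not_fd : ¬ FiniteDimensional ℝ H2 := by
  intro h
  have h1 := single_orthonormal.linearIndependent
  have h2 : Finite ℕ := h1.finite_of_isNoetherian
  exact not_finite ℕ

lemma exists_unit (F : Submodule ℝ H2) [FiniteDimensional ℝ F] : ∃ u ∈ Fᗮ, ‖u‖ = 1 := by
  have h1 : Fᗮ ≠ ⊥ := by
    intro h
    have h2 : F = ⊤ := by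
      rw [← Submodule.orthogonal_eq_bot_iff]
      exact h
    apply not_fd
    subst h2
    exact (Submodule.topEquiv : (⊤ : Submodule ℝ H2) ≃ₗ[ℝ] H2).finiteDimensional
  obtain ⟨v, hv, hv0⟩ := Submodule.exists_mem_ne_zero_of_ne_bot h1
  refine ⟨(‖v‖⁻¹ : ℝ) • v, Submodule.smul_mem _ _ hv, ?_⟩
  rw [norm_smul, norm_inv, norm_norm, inv_mul_cancel₀ (norm_ne_zero_iff.mpr hv0)]

/-- Recursive choice of an orthonormal sequence. -/
lemma exists_orthonormal_seq (P : ℕ → H2 → Prop)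
    (h : ∀ (k : ℕ) (F : Submodule ℝ H2), FiniteDimensional ℝ F → ∃ u ∈ Fᗮ, ‖u‖ = 1 ∧ P k u) :
    ∃ v : ℕ → H2, Orthonormal ℝ v ∧ ∀ n, ∃ k, n ≤ k ∧ P k (v n) := by
  classical
  obtain ⟨f, hf1, hf2⟩ := exists_seq_of_forall_finset_exists
    (fun p : ℕ × H2 => ‖p.2‖ = 1 ∧ P p.1 p.2)
    (fun p q : ℕ × H2 => p.1 < q.1 ∧ ⟪p.2, q.2⟫_ℝ = 0) (by
      intro s _
      obtain ⟨u, hu, hu1, hu2⟩ := h (s.sup (fun p => p.1) + 1)
        (Submodule.span ℝ ((s.image (fun p => p.2) : Finset H2) : Set H2)) inferInstance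
      refine ⟨(s.sup (fun p => p.1) + 1, u), ⟨hu1, hu2⟩, fun p hp => ⟨?_, ?_⟩⟩
      · exact Nat.lt_succ_of_le (Finset.le_sup (f := fun p : ℕ × H2 => p.1) hp)
      · exact (Submodule.mem_orthogonal _ _).mp hu p.2
          (Submodule.subset_span (by
            simp only [Finset.coe_image, Set.mem_image]
            exact ⟨p, hp, rfl⟩)))
  refine ⟨fun n => (f n).2, ?_, fun n => ⟨(f n).1, ?_, (hf1 n).2⟩⟩
  · refine ⟨fun n => (hf1 n).1, fun m n hmn => ?_⟩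
    rcases lt_or_gt_of_ne hmn with h1 | h1
    · exact (hf2 m n h1).2
    · have := (hf2 n m h1).2
      rw [real_inner_comm] at this
      exact this
  · induction n with
    | zero => exact Nat.zero_le _
    | succ n ih => exact lt_of_le_of_lt ih (hf2 n (n + 1) (Nat.lt_succ_self n)).1

/-- The isometry of `ℓ²` given by an orthonormal sequence. -/
noncomputable def W {v : ℕ → H2} (hv : Orthonormal ℝ v) : H2 →ₗᵢ[ℝ] H2 :=
  hv.orthogonalFamily.linearIsometry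

lemma W_hasSum {v : ℕ → H2} (hv : Orthonormal ℝ v) (u : H2) :
    HasSum (fun i => u i • v i) (W hv u) := by
  have h := hv.orthogonalFamily.hasSum_linearIsometry u
  simp only [LinearIsometry.toSpanSingleton_apply] at h
  exact h

lemma W_mem {v : ℕ → H2} (hv : Orthonormal ℝ v) (F : Submodule ℝ H2) (h : ∀ n, v n ∈ Fᗮ)
    (u : H2) : W hv u ∈ Fᗮ := by
  have h1 := W_hasSum hv u
  have hc : IsClosed (Fᗮ : Set H2) := Submodule.isClosed_orthogonal F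
  refine hc.mem_of_tendsto h1 (Eventually.of_forall fun s => ?_)
  exact Submodule.sum_mem _ fun i _ => Submodule.smul_mem _ _ (h i)

variable {V : Type*} [NormedAddCommGroup V] [NormedSpace ℝ V]

lemma small1 (hV : ¬ ContainsEll2 V) (R : H2 →L[ℝ] V) (F : Submodule ℝ H2)
    [FiniteDimensional ℝ F] {ε : ℝ} (hε : 0 < ε) : ∃ u ∈ Fᗮ, ‖u‖ = 1 ∧ ‖R u‖ ≤ ε := by
  by_contra hcon
  push Not at hcon
  obtain ⟨v, hv, hv2⟩ := exists_orthonormal_seq (fun _ u => u ∈ Fᗮ) (by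
    intro k F' hF'
    obtain ⟨u, hu, hu1⟩ := exists_unit (F ⊔ F')
    exact ⟨u, Submodule.orthogonal_le le_sup_right hu, hu1,
      Submodule.orthogonal_le le_sup_left hu⟩)
  have hv3 : ∀ n, v n ∈ Fᗮ := fun n => (hv2 n).choose_spec.2
  apply hV
  refine ⟨R.comp (W hv).toContinuousLinearMap, ε, hε, fun u => ?_⟩
  by_cases hu : u = 0
  · subst hu; simp
  have hn : ‖u‖ ≠ 0 := norm_ne_zero_iff.mpr hu
  have h1 := hcon (W hv ((‖u‖⁻¹ : ℝ) • u)) (W_mem hv F hv3 _) (by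
    rw [LinearIsometry.norm_map, norm_smul, norm_inv, norm_norm, inv_mul_cancel₀ hn])
  rw [map_smul, map_smul, norm_smul, norm_inv, norm_norm] at h1
  have h2 : ε * ‖u‖ < ‖u‖⁻¹ * ‖R (W hv u)‖ * ‖u‖ :=
    mul_lt_mul_of_pos_right h1 (norm_pos_iff.mpr hu)
  rw [mul_comm (‖u‖⁻¹), mul_assoc, inv_mul_cancel₀ hn, mul_one] at h2
  exact h2.le

lemma abs_coord_le (u : H2) (i : ℕ) : |u i| ≤ ‖u‖ := by
  have := lp.norm_apply_le_norm (p := 2) (by norm_num) u i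
  simpa using this

lemma smallm {κ : Type*} {Y : κ → Type*} [∀ i, NormedAddCommGroup (Y i)]
    [∀ i, NormedSpace ℝ (Y i)] (hY : ∀ i, ¬ ContainsEll2 (Y i)) {ε : ℝ} (hε : 0 < ε)
    (A : Finset κ) :
    ∀ (R : ∀ i, H2 →L[ℝ] Y i) (F : Submodule ℝ H2), FiniteDimensional ℝ F →
      ∃ u ∈ Fᗮ, ‖u‖ = 1 ∧ ∀ i ∈ A, ‖R i u‖ ≤ ε := by
  classical
  induction A using Finset.induction_on with
  | empty =>
    intro R F hF
    obtain ⟨u, hu, hu1⟩ := exists_unit F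
    exact ⟨u, hu, hu1, fun i hi => absurd hi (Finset.notMem_empty i)⟩
  | insert m A hm ih =>
    intro R F hF
    obtain ⟨v, hv, hv2⟩ := exists_orthonormal_seq
      (fun k u => u ∈ Fᗮ ∧ ‖R m u‖ ≤ ε * (1 / 2) ^ (k + 1)) (by
      intro k F' hF'
      obtain ⟨u, hu, hu1, hu2⟩ := small1 (hY m) (R m) (F ⊔ F')
        (show 0 < ε * (1 / 2) ^ (k + 1) by positivity)
      exact ⟨u, Submodule.orthogonal_le le_sup_right hu, hu1,
        Submodule.orthogonal_le le_sup_left hu, hu2⟩)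
    have hv3 : ∀ n, v n ∈ Fᗮ := fun n => (hv2 n).choose_spec.2.1
    have hv4 : ∀ n, ‖R m (v n)‖ ≤ ε * (1 / 2) ^ (n + 1) := by
      intro n
      obtain ⟨k, hk, _, h2⟩ := hv2 n
      refine h2.trans (mul_le_mul_of_nonneg_left ?_ hε.le)
      exact pow_le_pow_of_le_one (by norm_num) (by norm_num) (by omega)
    obtain ⟨u, _, hu1, hu2⟩ := ih (fun i => (R i).comp (W hv).toContinuousLinearMap) ⊥ inferInstance
    refine ⟨W hv u, W_mem hv F hv3 u, by rw [LinearIsometry.norm_map, hu1], fun i hi => ?_⟩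
    rcases Finset.mem_insert.mp hi with h1 | h1
    · subst h1
      have h3 : HasSum (fun j => R i (u j • v j)) (R i (W hv u)) :=
        (W_hasSum hv u).mapL (R i)
      have h4 : HasSum (fun j : ℕ => ε * (1 / 2 : ℝ) ^ (j + 1)) (ε * 1) := by
        apply HasSum.mul_left
        have h7 := hasSum_geometric_two' (1 : ℝ)
        have h8 : (fun j : ℕ => (1 / 2 : ℝ) ^ (j + 1)) = fun n : ℕ => (1 : ℝ) / 2 / 2 ^ n := by
          funext j
          rw [pow_succ, one_div_pow]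
          ring
        rw [h8]
        exact h7
      have h5 : ∀ j, ‖R i (u j • v j)‖ ≤ ε * (1 / 2 : ℝ) ^ (j + 1) := by
        intro j
        rw [map_smul, norm_smul]
        calc ‖u j‖ * ‖R i (v j)‖ ≤ 1 * (ε * (1 / 2 : ℝ) ^ (j + 1)) := by
              apply mul_le_mul _ (hv4 j) (norm_nonneg _) zero_le_one
              rw [← hu1]
              exact abs_coord_le u j
          _ = _ := one_mul _
      have h6 := h3.norm_le_of_bounded h4 h5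
      rw [mul_one] at h6
      exact h6
    · exact hu2 i h1

lemma abs_sq_sub (a b c : ℝ) (ha : 0 ≤ a) (hb : 0 ≤ b) (h1 : c ≤ a + b) (h2 : |a - b| ≤ c) :
    |c ^ 2 - a ^ 2 - b ^ 2| ≤ 2 * a * b := by
  have hc : 0 ≤ c := le_trans (abs_nonneg _) h2
  have h3 : c ^ 2 ≤ (a + b) ^ 2 := by nlinarith
  have h4 : (a - b) ^ 2 ≤ c ^ 2 := by
    rw [← sq_abs (a - b)]
    exact pow_le_pow_left₀ (abs_nonneg _) h2 2
  rw [abs_le]
  constructor <;> nlinarith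

omit [NormedSpace ℝ V] in
lemma norm_add_sq_sub (x y : V) : |‖x + y‖ ^ 2 - ‖x‖ ^ 2 - ‖y‖ ^ 2| ≤ 2 * ‖x‖ * ‖y‖ := by
  apply abs_sq_sub _ _ _ (norm_nonneg _) (norm_nonneg _) (norm_add_le _ _)
  have := abs_norm_sub_norm_le x (-y)
  rwa [norm_neg, sub_neg_eq_add] at this

lemma hasSum_sq {κ : Type*} {Y : κ → Type*} [∀ i, NormedAddCommGroup (Y i)]
    (w : lp Y 2) : HasSum (fun i => ‖w i‖ ^ 2) (‖w‖ ^ 2) := by
  have := lp.hasSum_norm (p := 2) (by norm_num) w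
  simpa using this

lemma hump {κ : Type*} {Y : κ → Type*} [∀ i, NormedAddCommGroup (Y i)]
    [∀ i, NormedSpace ℝ (Y i)] (hY : ∀ i, ¬ ContainsEll2 (Y i)) (S : H2 →L[ℝ] lp Y 2)
    (w : lp Y 2) (F : Submodule ℝ H2) (hF : FiniteDimensional ℝ F) {ε : ℝ}
    (hε : 0 < ε) : ∃ u ∈ Fᗮ, ‖u‖ = 1 ∧ |‖w + S u‖ ^ 2 - ‖w‖ ^ 2 - ‖S u‖ ^ 2| ≤ ε := by
  classical
  have hw := hasSum_sq w
  set K : ℝ := 3 * (‖S‖ ^ 2 + 1) / ε with hK
  have hKpos : 0 < K := by positivity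
  obtain ⟨A, hA⟩ : ∃ A : Finset κ, ‖w‖ ^ 2 - ∑ i ∈ A, ‖w i‖ ^ 2 ≤ ε / (3 * K) := by
    have h1 : ‖w‖ ^ 2 - ε / (3 * K) < ‖w‖ ^ 2 := by
      have : 0 < ε / (3 * K) := by positivity
      linarith
    obtain ⟨A, hA⟩ := (hw.eventually (lt_mem_nhds h1)).exists
    exact ⟨A, by linarith⟩
  set δ : ℝ := ε / (6 * ((A.card : ℝ) + 1) * (‖w‖ + 1)) with hδ
  have hδpos : 0 < δ := by positivity
  obtain ⟨u, hu, hu1, hu2⟩ := smallm hY hδpos A
    (fun i => (lp.evalCLM ℝ Y 2 i).comp S) F hF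
  refine ⟨u, hu, hu1, ?_⟩
  set y := S u with hy
  have hyn : ‖y‖ ≤ ‖S‖ := by
    have := S.le_opNorm u
    rwa [hu1, mul_one] at this
  have hu3 : ∀ i ∈ A, ‖y i‖ ≤ δ := hu2
  have hys := hasSum_sq y
  have hs := hasSum_sq (w + y)
  have hD : HasSum (fun i => ‖w i + y i‖ ^ 2 - ‖w i‖ ^ 2 - ‖y i‖ ^ 2)
      (‖w + y‖ ^ 2 - ‖w‖ ^ 2 - ‖y‖ ^ 2) := (hs.sub hw).sub hys
  have hwm : ∀ i, ‖w i‖ ≤ ‖w‖ := fun i => lp.norm_apply_le_norm (by norm_num) w i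
  have hb1 : HasSum (fun i => if i ∈ A then 2 * ‖w‖ * δ else 0) (A.card * (2 * ‖w‖ * δ)) := by
    have h1 : HasSum (fun i => if i ∈ A then 2 * ‖w‖ * δ else 0)
        (∑ i ∈ A, (if i ∈ A then 2 * ‖w‖ * δ else 0)) :=
      hasSum_sum_of_ne_finset_zero (fun i hi => if_neg hi)
    have h2 : ∑ i ∈ A, (if i ∈ A then 2 * ‖w‖ * δ else 0) = A.card * (2 * ‖w‖ * δ) := by
      rw [Finset.sum_congr rfl (fun i hi => if_pos hi)]
      simp
    rwa [h2] at h1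
  have hb2 : HasSum (fun i => ‖w i‖ ^ 2 - if i ∈ A then ‖w i‖ ^ 2 else 0)
      (‖w‖ ^ 2 - ∑ i ∈ A, ‖w i‖ ^ 2) := by
    have h1 : HasSum (fun i => if i ∈ A then ‖w i‖ ^ 2 else 0)
        (∑ i ∈ A, (if i ∈ A then ‖w i‖ ^ 2 else 0)) :=
      hasSum_sum_of_ne_finset_zero (fun i hi => if_neg hi)
    have h2 : ∑ i ∈ A, (if i ∈ A then ‖w i‖ ^ 2 else 0) = ∑ i ∈ A, ‖w i‖ ^ 2 :=
      Finset.sum_congr rfl (fun i hi => if_pos hi)
    rw [h2] at h1
    exact hw.sub h1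
  have hb := (hb1.add (hb2.mul_left K)).add (hys.mul_left K⁻¹)
  have hbd : ∀ i, ‖‖w i + y i‖ ^ 2 - ‖w i‖ ^ 2 - ‖y i‖ ^ 2‖ ≤
      (if i ∈ A then 2 * ‖w‖ * δ else 0) + K * (‖w i‖ ^ 2 - if i ∈ A then ‖w i‖ ^ 2 else 0) +
        K⁻¹ * ‖y i‖ ^ 2 := by
    intro i
    rw [Real.norm_eq_abs]
    refine (norm_add_sq_sub _ _).trans ?_
    by_cases hi : i ∈ A
    · rw [if_pos hi, if_pos hi, sub_self, mul_zero, add_zero]
      have h1 := hu3 i hi
      have h2 := hwm i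
      have h3 : 2 * ‖w i‖ * ‖y i‖ ≤ 2 * ‖w‖ * δ := by gcongr
      have h4 : 0 ≤ K⁻¹ * ‖y i‖ ^ 2 := by positivity
      linarith
    · rw [if_neg hi, if_neg hi, sub_zero, zero_add]
      have h1 : 0 ≤ K⁻¹ * (K * ‖w i‖ - ‖y i‖) ^ 2 := by positivity
      have h2 : K⁻¹ * (K * ‖w i‖ - ‖y i‖) ^ 2 =
          K * ‖w i‖ ^ 2 + K⁻¹ * ‖y i‖ ^ 2 - 2 * ‖w i‖ * ‖y i‖ := by
        field_simp
        ring
      linarith
  have h3 := hD.norm_le_of_bounded hb hbd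
  rw [Real.norm_eq_abs] at h3
  refine h3.trans ?_
  have hA1 : A.card * (2 * ‖w‖ * δ) ≤ ε / 3 := by
    calc A.card * (2 * ‖w‖ * δ) ≤ (A.card + 1) * (2 * (‖w‖ + 1) * δ) := by
          gcongr <;> linarith
      _ = ε / 3 := by
          rw [hδ]
          field_simp
          norm_num
  have h8 : K * (‖w‖ ^ 2 - ∑ i ∈ A, ‖w i‖ ^ 2) ≤ K * (ε / (3 * K)) := by gcongr
  have h9 : K⁻¹ * ‖y‖ ^ 2 ≤ K⁻¹ * (‖S‖ ^ 2 + 1) := by
    have : ‖y‖ ^ 2 ≤ ‖S‖ ^ 2 := by gcongr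
    gcongr
    linarith
  have h10 : K * (ε / (3 * K)) = ε / 3 := by field_simp
  have h11 : K⁻¹ * (‖S‖ ^ 2 + 1) = ε / 3 := by
    rw [hK]
    field_simp
  linarith

end Pool.Agent.Helper547.Diestel
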