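import Pool.Agent.Helper547.Diestel.Gauss

set_option autoImplicit false

open MeasureTheory ProbabilityTheory Filter Topology
open scoped ENNReal NNReal InnerProductSpace

namespace Pool.Agent.Helper547.Diestel

variable {V : Type*} [NormedAddCommGroup V] [NormedSpace ℝ V]

/-- The map `u ↦ G(u) ⊗ z` from `ℓ²` into `L²([0,1], V)`. -/
noncomputable def tens (z : V) : H2 →L[ℝ] Lp V 2 mu01 :=
  ((ContinuousLinearMap.toSpanSingleton ℝ z).compLpL 2 mu01).comp G.toContinuousLinearMap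

lemma tens_coe (z : V) (u : H2) :
    tens z u =ᵐ[mu01] fun t => (G u : Lp ℝ 2 mu01) t • z := by
  have h := ContinuousLinearMap.coeFn_compLpL (p := 2) (μ := mu01)
    (ContinuousLinearMap.toSpanSingleton ℝ z) (G u)
  filter_upwards [h] with t ht
  have : tens z u t = ((ContinuousLinearMap.toSpanSingleton ℝ z).compLpL 2 mu01 (G u)) t := rfl
  rw [this, ht]
  simp

lemma sum_tens_coe {ι : Type*} (s : Finset ι) (u : ι → H2) (z : ι → V) :
    (∑ i ∈ s, tens (z i) (u i) : Lp V 2 mu01) =ᵐ[mu01]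
      fun t => ∑ i ∈ s, (G (u i) : Lp ℝ 2 mu01) t • z i := by
  have h8 := Lp.coeFn_fun_finsetSum s (fun i => tens (z i) (u i))
  have h9 : ∀ᵐ t ∂mu01, ∀ i ∈ s, tens (z i) (u i) t = (G (u i) : Lp ℝ 2 mu01) t • z i :=
    (Finset.eventually_all s).mpr fun i _ => tens_coe (z i) (u i)
  filter_upwards [h8, h9] with t h10 h11
  rw [h10]
  exact Finset.sum_congr rfl h11

lemma char_sum_tens [MeasurableSpace V] [BorelSpace V] {ι : Type*} (s : Finset ι) (u : ι → H2)
    (z : ι → V) (l : StrongDual ℝ V) :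
    charFunDual (mu01.map (∑ i ∈ s, tens (z i) (u i) : Lp V 2 mu01)) l =
      Complex.exp (-((‖∑ i ∈ s, l (z i) • u i‖ ^ 2 : ℝ) : ℂ) / 2) := by
  rw [← G_char, charFunDual_apply, integral_map (Lp.aestronglyMeasurable _).aemeasurable
    (by fun_prop)]
  apply integral_congr_ae
  have h1 : (G (∑ i ∈ s, l (z i) • u i) : Lp ℝ 2 mu01) =ᵐ[mu01]
      fun t => ∑ i ∈ s, l (z i) * (G (u i) : Lp ℝ 2 mu01) t := by
    rw [map_sum]
    have h8 := Lp.coeFn_fun_finsetSum s (fun i => G (l (z i) • u i))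
    have h9 : ∀ᵐ t ∂mu01, ∀ i ∈ s, (G (l (z i) • u i) : Lp ℝ 2 mu01) t =
        l (z i) * (G (u i) : Lp ℝ 2 mu01) t := by
      refine (Finset.eventually_all s).mpr fun i _ => ?_
      rw [map_smul]
      filter_upwards [Lp.coeFn_smul (l (z i)) (G (u i))] with t ht
      rw [ht]
      rfl
    filter_upwards [h8, h9] with t h10 h11
    rw [h10]
    exact Finset.sum_congr rfl h11
  filter_upwards [h1, sum_tens_coe s u z] with t h2 h3
  rw [h2, h3, map_sum]
  congr 3
  refine Finset.sum_congr rfl fun i _ => ?_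
  rw [map_smul, smul_eq_mul, mul_comm]

lemma norm_sum_tens_congr [CompleteSpace V] [SecondCountableTopology V] {ι κ : Type*}
    (s : Finset ι) (u : ι → H2) (z : ι → V) (s' : Finset κ) (u' : κ → H2) (z' : κ → V)
    (h : ∀ l : StrongDual ℝ V, ‖∑ i ∈ s, l (z i) • u i‖ = ‖∑ i ∈ s', l (z' i) • u' i‖) :
    ‖(∑ i ∈ s, tens (z i) (u i) : Lp V 2 mu01)‖ =
      ‖(∑ i ∈ s', tens (z' i) (u' i) : Lp V 2 mu01)‖ := by
  borelize V
  have key : ∀ f : Lp V 2 mu01, ‖f‖ = (eLpNorm id 2 (mu01.map f)).toReal := by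
    intro f
    rw [eLpNorm_map_measure (by fun_prop) (Lp.aestronglyMeasurable _).aemeasurable, Lp.norm_def]
    rfl
  rw [key, key]
  congr 2
  have : IsFiniteMeasure (mu01.map (∑ i ∈ s, tens (z i) (u i) : Lp V 2 mu01)) := inferInstance
  apply Measure.ext_of_charFunDual
  funext l
  rw [char_sum_tens, char_sum_tens, h l]

lemma norm_tens [CompleteSpace V] (z : V) (u : H2) : ‖tens z u‖ = ‖z‖ * ‖u‖ := by
  have h1 : ‖tens z u‖ = ‖‖z‖ • (G u : Lp ℝ 2 mu01)‖ := by
    rw [Lp.norm_def, Lp.norm_def]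
    congr 1
    apply eLpNorm_congr_norm_ae
    filter_upwards [tens_coe z u, Lp.coeFn_smul (‖z‖) (G u : Lp ℝ 2 mu01)] with t h2 h3
    rw [h2, h3, norm_smul, Pi.smul_apply, norm_smul, norm_norm, mul_comm]
  rw [h1, norm_smul, norm_norm, LinearIsometry.norm_map]

end Pool.Agent.Helper547.Diestel
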